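import Pool.Agent.Helper30.Gap.PairSieve

/-!
# The average of `G h = ∏_{q ∣ h} (1 - 1/q)^{-2}` over an interval
-/

set_option autoImplicit false

open Finset Real

namespace Pool.Agent.Helper30.Gap

/-- `g q = (1 - 1/q)^{-2} - 1`. -/
noncomputable def g (q : ℕ) : ℝ := ((1 - (1 : ℝ) / q) ^ 2)⁻¹ - 1

theorem g_nonneg {q : ℕ} (hq : q.Prime) : 0 ≤ g q := by
  unfold g
  have h1 := one_sub_inv_pos hq
  have h2 := one_sub_inv_lt hq
  rw [sub_nonneg, one_le_inv₀ (by positivity)]
  nlinarith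

theorem g_le {q : ℕ} (hq : q.Prime) : g q ≤ 6 / q := by
  unfold g
  have h2 : (2 : ℝ) ≤ q := by exact_mod_cast hq.two_le
  have hq0 : (0 : ℝ) < q := by linarith
  have h1 : (0 : ℝ) < q - 1 := by linarith
  have e : ((1 - (1 : ℝ) / q) ^ 2)⁻¹ - 1 = (2 * (q : ℝ) - 1) / ((q : ℝ) - 1) ^ 2 := by
    have e1 : 1 - (1 : ℝ) / q = ((q : ℝ) - 1) / q := by field_simp
    rw [e1]
    field_simp
    ring
  rw [e, div_le_div_iff₀ (by positivity) hq0]
  nlinarith

theorem G_eq_sum (h : ℕ) : G h = ∑ S ∈ h.primeFactors.powerset, ∏ q ∈ S, g q := by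
  unfold G
  rw [← Finset.prod_one_add]
  apply Finset.prod_congr rfl
  intro q _
  unfold g; ring

theorem card_mult (A B D : ℕ) (hAB : A ≤ B) (hD : 0 < D) :
    (((Ioc A B).filter (fun h => D ∣ h)).card : ℝ) ≤
      ((B : ℝ) - A) / D + Real.sqrt B / Real.sqrt D := by
  have hD0 : (0 : ℝ) < D := by exact_mod_cast hD
  have h1 : (Ioc A B).filter (fun h => D ∣ h) =
      ((Ioc 0 B).filter (fun h => D ∣ h)) \ ((Ioc 0 A).filter (fun h => D ∣ h)) := by
    ext x
    simp only [Finset.mem_filter, Finset.mem_Ioc, Finset.mem_sdiff]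
    constructor
    · rintro ⟨⟨h1, h2⟩, h3⟩
      exact ⟨⟨⟨by omega, h2⟩, h3⟩, fun h => by omega⟩
    · rintro ⟨⟨⟨h1, h2⟩, h3⟩, h4⟩
      refine ⟨⟨?_, h2⟩, h3⟩
      by_contra hc
      exact h4 ⟨⟨h1, by omega⟩, h3⟩
  have hsub : (Ioc 0 A).filter (fun h => D ∣ h) ⊆ (Ioc 0 B).filter (fun h => D ∣ h) := by
    apply Finset.filter_subset_filter
    exact Finset.Ioc_subset_Ioc_right hAB
  have h2 : ((Ioc A B).filter (fun h => D ∣ h)).card = B / D - A / D := by
    rw [h1, Finset.card_sdiff_of_subset hsub, Nat.Ioc_filter_dvd_card_eq_div,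
      Nat.Ioc_filter_dvd_card_eq_div]
  rw [h2, Nat.cast_sub (Nat.div_le_div_right hAB)]
  by_cases hDB : D ≤ B
  · have h3 : ((B / D : ℕ) : ℝ) ≤ B / D := Nat.cast_div_le
    have h4 : (A : ℝ) / D < ((A / D : ℕ) : ℝ) + 1 := by
      rw [div_lt_iff₀ hD0]
      have := Nat.lt_div_mul_add (a := A) hD
      have h5 : A < (A / D + 1) * D := by
        rw [add_mul, one_mul]; exact this
      exact_mod_cast h5
    have h5 : (1 : ℝ) ≤ Real.sqrt B / Real.sqrt D := by
      rw [le_div_iff₀ (Real.sqrt_pos.mpr hD0), one_mul]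
      exact Real.sqrt_le_sqrt (by exact_mod_cast hDB)
    rw [sub_div]
    linarith
  · push Not at hDB
    rw [Nat.div_eq_of_lt hDB, Nat.div_eq_of_lt (lt_of_le_of_lt hAB hDB)]
    have : (A : ℝ) ≤ B := by exact_mod_cast hAB
    have h6 : (0 : ℝ) ≤ ((B : ℝ) - A) / D := by
      apply div_nonneg (by linarith) hD0.le
    simp only [Nat.cast_zero, sub_zero]
    positivity

theorem avg_G : ∃ C : ℝ, 0 < C ∧ ∀ A B : ℕ, A ≤ B →
    ∑ h ∈ Ioc A B, G h ≤ C * ((B : ℝ) - A) + C * Real.sqrt B := by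
  classical
  set Z : ℝ := ∑' n : ℕ, 1 / (n : ℝ) ^ (3 / 2 : ℝ) with hZ
  have hsum : Summable (fun n : ℕ => 1 / (n : ℝ) ^ (3 / 2 : ℝ)) :=
    Real.summable_one_div_nat_rpow.mpr (by norm_num)
  refine ⟨Real.exp (6 * Z), Real.exp_pos _, ?_⟩
  intro A B hAB
  have hABr : (0 : ℝ) ≤ (B : ℝ) - A := by
    have : (A : ℝ) ≤ B := by exact_mod_cast hAB
    linarith
  set PB : Finset ℕ := (range (B + 1)).filter Nat.Prime with hPB
  have hPBp : ∀ q ∈ PB, q.Prime := fun q hq => (Finset.mem_filter.mp hq).2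
  have hgS : ∀ S ∈ PB.powerset, 0 ≤ ∏ q ∈ S, g q := by
    intro S hS
    apply Finset.prod_nonneg
    intro q hq
    exact g_nonneg (hPBp q (Finset.mem_powerset.mp hS hq))
  have h1 : ∑ h ∈ Ioc A B, G h =
      ∑ S ∈ PB.powerset, (∏ q ∈ S, g q) *
        (((Ioc A B).filter (fun h => (∏ q ∈ S, q) ∣ h)).card : ℝ) := by
    calc ∑ h ∈ Ioc A B, G h
        = ∑ h ∈ Ioc A B, ∑ S ∈ PB.powerset,
            if (∏ q ∈ S, q) ∣ h then ∏ q ∈ S, g q else 0 := by
          apply Finset.sum_congr rfl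
          intro h hh
          rw [Finset.mem_Ioc] at hh
          have hh0 : h ≠ 0 := by omega
          rw [G_eq_sum, ← Finset.sum_filter]
          apply Finset.sum_congr _ fun _ _ => rfl
          ext S
          rw [Finset.mem_filter, Finset.mem_powerset, Finset.mem_powerset]
          constructor
          · intro hS
            refine ⟨?_, ?_⟩
            · intro q hq
              have h3 := hS hq
              rw [Nat.mem_primeFactors] at h3
              rw [hPB, Finset.mem_filter, Finset.mem_range]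
              have := Nat.le_of_dvd (by omega) h3.2.1
              exact ⟨by omega, h3.1⟩
            · apply Finset.prod_primes_dvd
              · intro q hq
                exact (Nat.prime_of_mem_primeFactors (hS hq)).prime
              · intro q hq
                exact Nat.dvd_of_mem_primeFactors (hS hq)
          · rintro ⟨hS, hd⟩ q hq
            rw [Nat.mem_primeFactors]
            exact ⟨hPBp q (hS hq), (Finset.dvd_prod_of_mem _ hq).trans hd, hh0⟩
      _ = ∑ S ∈ PB.powerset, ∑ h ∈ Ioc A B,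
            if (∏ q ∈ S, q) ∣ h then ∏ q ∈ S, g q else 0 := Finset.sum_comm
      _ = _ := by
          apply Finset.sum_congr rfl
          intro S _
          rw [← Finset.sum_filter, Finset.sum_const, nsmul_eq_mul, mul_comm]
  rw [h1]
  have hprodbd : ∀ f : ℕ → ℝ, (∀ q ∈ PB, 0 ≤ f q ∧ f q ≤ 6 * (1 / (q : ℝ) ^ (3 / 2 : ℝ))) →
      ∑ S ∈ PB.powerset, ∏ q ∈ S, f q ≤ Real.exp (6 * Z) := by
    intro f hf
    rw [← Finset.prod_one_add]
    calc ∏ q ∈ PB, (1 + f q) ≤ ∏ q ∈ PB, Real.exp (6 * (1 / (q : ℝ) ^ (3 / 2 : ℝ))) := by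
          apply Finset.prod_le_prod
          · intro q hq; linarith [(hf q hq).1]
          · intro q hq
            have := Real.add_one_le_exp (6 * (1 / (q : ℝ) ^ (3 / 2 : ℝ)))
            linarith [(hf q hq).2]
      _ = Real.exp (∑ q ∈ PB, 6 * (1 / (q : ℝ) ^ (3 / 2 : ℝ))) := by rw [Real.exp_sum]
      _ ≤ Real.exp (6 * Z) := by
          apply Real.exp_le_exp.mpr
          rw [← Finset.mul_sum]
          apply mul_le_mul_of_nonneg_left _ (by norm_num)
          exact hsum.sum_le_tsum _ (fun n _ => by positivity)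
  have hq1 : ∀ q ∈ PB, (1 : ℝ) ≤ q := fun q hq => by exact_mod_cast (hPBp q hq).one_lt.le
  have hr : ∀ q ∈ PB, (q : ℝ) ^ (3 / 2 : ℝ) = q * Real.sqrt q := by
    intro q hq
    have h1 : (0 : ℝ) < q := by linarith [hq1 q hq]
    rw [show (3 / 2 : ℝ) = 1 + 1 / 2 by norm_num, Real.rpow_add h1, Real.rpow_one,
      ← Real.sqrt_eq_rpow]
  have hb1 := hprodbd (fun q => g q / q) (by
    intro q hq
    have h1 := hq1 q hq
    have h2 := g_nonneg (hPBp q hq)
    have h3 := g_le (hPBp q hq)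
    have h4 : (0 : ℝ) < q := by linarith
    have h5 : 1 ≤ Real.sqrt q := Real.one_le_sqrt.mpr h1
    have h6 : Real.sqrt q ≤ q := by
      have := Real.mul_self_sqrt h4.le
      nlinarith
    refine ⟨by positivity, ?_⟩
    rw [hr q hq]
    calc g q / q ≤ (6 / q) / q := by gcongr
      _ = 6 * (1 / (q * q)) := by ring
      _ ≤ 6 * (1 / (q * Real.sqrt q)) := by
        apply mul_le_mul_of_nonneg_left _ (by norm_num)
        apply one_div_le_one_div_of_le (by positivity)
        gcongr)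
  have hb2 := hprodbd (fun q => g q / Real.sqrt q) (by
    intro q hq
    have h1 := hq1 q hq
    have h2 := g_nonneg (hPBp q hq)
    have h3 := g_le (hPBp q hq)
    have h4 : (0 : ℝ) < q := by linarith
    have h5 : 1 ≤ Real.sqrt q := Real.one_le_sqrt.mpr h1
    refine ⟨by positivity, ?_⟩
    rw [hr q hq]
    calc g q / Real.sqrt q ≤ (6 / q) / Real.sqrt q := by gcongr
      _ = 6 * (1 / (q * Real.sqrt q)) := by field_simp)
  have hsqrtprod : ∀ S : Finset ℕ, Real.sqrt ((∏ q ∈ S, q : ℕ) : ℝ) = ∏ q ∈ S, Real.sqrt q := by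
    intro S
    push_cast
    rw [Real.sqrt_eq_rpow, ← Real.finsetProd_rpow]
    · apply Finset.prod_congr rfl
      intro q _
      rw [Real.sqrt_eq_rpow]
    · intro q _; positivity
  calc ∑ S ∈ PB.powerset, (∏ q ∈ S, g q) *
        (((Ioc A B).filter (fun h => (∏ q ∈ S, q) ∣ h)).card : ℝ)
      ≤ ∑ S ∈ PB.powerset, (((B : ℝ) - A) * ∏ q ∈ S, (g q / q) +
          Real.sqrt B * ∏ q ∈ S, (g q / Real.sqrt q)) := by
        apply Finset.sum_le_sum
        intro S hS
        have hSp : ∀ q ∈ S, q.Prime := fun q hq => hPBp q (Finset.mem_powerset.mp hS hq)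
        have hDpos : 0 < ∏ q ∈ S, q := Finset.prod_pos fun q hq => (hSp q hq).pos
        have h2 := card_mult A B (∏ q ∈ S, q) hAB hDpos
        have h3 := hgS S hS
        calc _ ≤ (∏ q ∈ S, g q) * (((B : ℝ) - A) / ((∏ q ∈ S, q : ℕ) : ℝ) +
              Real.sqrt B / Real.sqrt ((∏ q ∈ S, q : ℕ) : ℝ)) := mul_le_mul_of_nonneg_left h2 h3
          _ = _ := by
            rw [hsqrtprod, Finset.prod_div_distrib, Finset.prod_div_distrib]
            push_cast
            ring
    _ = ((B : ℝ) - A) * ∑ S ∈ PB.powerset, ∏ q ∈ S, (g q / q) +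
          Real.sqrt B * ∑ S ∈ PB.powerset, ∏ q ∈ S, (g q / Real.sqrt q) := by
        rw [Finset.sum_add_distrib, Finset.mul_sum, Finset.mul_sum]
    _ ≤ ((B : ℝ) - A) * Real.exp (6 * Z) + Real.sqrt B * Real.exp (6 * Z) := by
        gcongr
    _ = _ := by ring

end Pool.Agent.Helper30.Gap
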