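import Pool.Agent.Helper30.Gap.Law

/-!
# Consequences for the question on the density of the normalised prime gaps
-/

set_option autoImplicit false

open Finset Real Filter Topology

namespace Pool.Agent.Helper30.Gap

/-- Every nonnegative real is in the closure of the nonnegative rationals. -/
theorem mem_closure_rat {c : ℝ} (hc : 0 ≤ c) : c ∈ closure {d : ℝ | ∃ q : ℚ, 0 ≤ q ∧ (q : ℝ) = d} := by
  rw [Metric.mem_closure_iff]
  intro ε hε
  obtain ⟨q, hq1, hq2⟩ := exists_rat_btwn (show c < c + ε by linarith)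
  refine ⟨q, ⟨q, ?_, rfl⟩, ?_⟩
  · have : (0 : ℝ) < q := by linarith
    exact_mod_cast this.le
  · rw [Real.dist_eq, abs_sub_lt_iff]
    constructor <;> linarith

/-- Compactness: subsequential limit laws. -/
theorem limit_law {K : ℝ} (hK : 0 < K) (h : ∀ a b : ℝ, 0 ≤ a → a < b → ∀ᶠ N : ℕ in atTop,
    F N b - F N a ≤ K * (b - a)) (φ : ℕ → ℕ) (hφ : StrictMono φ) :
    ∃ (ψ : ℕ → ℕ) (f : ℝ → ℝ), StrictMono ψ ∧ f 0 = 0 ∧ Tendsto f atTop (𝓝 1) ∧
      (∀ a b, 0 ≤ a → a ≤ b → f a ≤ f b ∧ f b - f a ≤ K * (b - a)) ∧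
      ∀ c, 0 ≤ c → Tendsto (fun j => F (φ (ψ j)) c) atTop (𝓝 (f c)) := by
  classical
  have hcpt : IsCompact (Set.pi Set.univ (fun _ : ℚ => Set.Icc (0 : ℝ) 1)) :=
    isCompact_univ_pi fun _ => isCompact_Icc
  obtain ⟨l, -, ψ, hψ, hl⟩ := hcpt.tendsto_subseq (x := fun j => fun q : ℚ => F (φ j) q)
    (fun j => fun q _ => ⟨F_nonneg _ _, F_le_one _ _⟩)
  rw [tendsto_pi_nhds] at hl
  have hU : map (φ ∘ ψ) atTop ≤ atTop := (hφ.comp hψ).tendsto_atTop
  have hex : ∀ c : ℝ, 0 ≤ c → ∃ l, Tendsto (fun j => F (φ (ψ j)) c) atTop (𝓝 l) := by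
    intro c hc
    have := (conv_closed hK h (U := map (φ ∘ ψ) atTop) hU
      (D := {d : ℝ | ∃ q : ℚ, 0 ≤ q ∧ (q : ℝ) = d}) (by
        rintro d ⟨q, hq, rfl⟩
        refine ⟨by exact_mod_cast hq, l q, ?_⟩
        rw [tendsto_map'_iff]
        exact hl q) (mem_closure_rat hc)).2
    obtain ⟨l', hl'⟩ := this
    exact ⟨l', by rw [tendsto_map'_iff] at hl'; exact hl'⟩
  choose! f hf using hex
  have hlip : ∀ a b, 0 ≤ a → a ≤ b → f a ≤ f b ∧ f b - f a ≤ K * (b - a) := by
    intro a b ha hab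
    refine ⟨le_of_tendsto_of_tendsto' (hf a ha) (hf b (ha.trans hab)) fun j => F_mono _ hab, ?_⟩
    rcases hab.eq_or_lt with rfl | hlt
    · simp
    · have h1 := (hf b (ha.trans hab)).sub (hf a ha)
      have h2 : ∀ᶠ j in atTop, F (φ (ψ j)) b - F (φ (ψ j)) a ≤ K * (b - a) :=
        (hφ.comp hψ).tendsto_atTop.eventually (h a b ha hlt)
      exact le_of_tendsto h1 h2
  refine ⟨ψ, f, hψ, ?_, ?_, hlip, hf⟩
  · have h1 := hf 0 le_rfl
    simp only [F_zero] at h1
    exact (tendsto_nhds_unique h1 tendsto_const_nhds)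
  · have h1 : ∀ c : ℝ, 0 < c → 1 - 25 / c ≤ f c ∧ f c ≤ 1 := by
      intro c hc
      constructor
      · have h2 : ∀ᶠ j in atTop, 1 - 25 / c ≤ F (φ (ψ j)) c := by
          filter_upwards [(hφ.comp hψ).tendsto_atTop.eventually (tight c hc)] with j hj
          simp only [Function.comp] at hj
          linarith
        exact ge_of_tendsto (hf c hc.le) h2
      · exact le_of_tendsto' (hf c hc.le) fun j => F_le_one _ _
    have h2 : Tendsto (fun c : ℝ => 1 - 25 / c) atTop (𝓝 1) := by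
      have : Tendsto (fun c : ℝ => 1 - 25 / c) atTop (𝓝 (1 - 0)) :=
        tendsto_const_nhds.sub (tendsto_const_nhds.div_atTop tendsto_id)
      simpa using this
    apply tendsto_of_tendsto_of_tendsto_of_le_of_le' h2 tendsto_const_nhds
    · filter_upwards [eventually_gt_atTop 0] with c hc using (h1 c hc).1
    · filter_upwards [eventually_gt_atTop 0] with c hc using (h1 c hc).2

/-- Same proportions, the gap being divided by `log p_n` instead of `log n`. -/
noncomputable def Fp (N : ℕ) (c : ℝ) : ℝ :=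
  ((((Finset.Icc 1 N).filter (fun n : ℕ =>
    (((Nat.nth Nat.Prime n : ℕ) : ℝ) - ((Nat.nth Nat.Prime (n - 1) : ℕ) : ℝ))
      / Real.log ((Nat.nth Nat.Prime (n - 1) : ℕ) : ℝ) < c)).card : ℕ) : ℝ) / (N : ℝ)

/-- `log p_n ≤ (1 + η) log n` for large `n`, and `log n ≤ log p_n`. -/
theorem log_p_bounds (η : ℝ) (hη : 0 < η) : ∀ᶠ n : ℕ in atTop,
    Real.log n ≤ Real.log ((Nat.nth Nat.Prime (n - 1) : ℕ) : ℝ) ∧
    Real.log ((Nat.nth Nat.Prime (n - 1) : ℕ) : ℝ) ≤ (1 + η) * Real.log n := by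
  have h1 : ∀ᶠ n : ℕ in atTop, 5 * Real.log n ≤ (n : ℝ) ^ η := by
    have h2 := (isLittleO_log_rpow_atTop hη).def (show (0 : ℝ) < 1 / 5 by norm_num)
    have h3 := tendsto_natCast_atTop_atTop (R := ℝ) |>.eventually h2
    filter_upwards [h3, eventually_ge_atTop 1] with n hn hn1
    have hn1' : (1 : ℝ) ≤ n := by exact_mod_cast hn1
    rw [Real.norm_of_nonneg (Real.log_nonneg hn1'), Real.norm_of_nonneg (by positivity)] at hn
    linarith
  filter_upwards [h1, eventually_ge_atTop 81] with n hn hn81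
  have hn1 : (81 : ℝ) ≤ n := by exact_mod_cast hn81
  have hn0 : (0 : ℝ) < n := by linarith
  have hln : 1 < Real.log n := by
    rw [Real.lt_log_iff_exp_lt hn0]
    have := Real.exp_one_lt_d9
    linarith
  have hge : n ≤ Nat.nth Nat.Prime (n - 1) := by
    have := Nat.add_two_le_nth_prime (n - 1)
    omega
  have hge' : (n : ℝ) ≤ ((Nat.nth Nat.Prime (n - 1) : ℕ) : ℝ) := by exact_mod_cast hge
  refine ⟨Real.log_le_log hn0 hge', ?_⟩
  have hlt := nth_lt hn81
  have h2 : ((Nat.nth Nat.Prime (n - 1) : ℕ) : ℝ) ≤ (⌈4 * (n : ℝ) * Real.log n⌉₊ : ℝ) := by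
    exact_mod_cast Nat.lt_succ_iff.mp hlt
  have h3 := Nat.ceil_lt_add_one (a := 4 * (n : ℝ) * Real.log n) (by positivity)
  have h4 : ((Nat.nth Nat.Prime (n - 1) : ℕ) : ℝ) ≤ (n : ℝ) * (n : ℝ) ^ η := by
    calc ((Nat.nth Nat.Prime (n - 1) : ℕ) : ℝ) ≤ (n : ℝ) * (5 * Real.log n) := by nlinarith
      _ ≤ (n : ℝ) * (n : ℝ) ^ η := by gcongr
  calc Real.log ((Nat.nth Nat.Prime (n - 1) : ℕ) : ℝ) ≤ Real.log ((n : ℝ) * (n : ℝ) ^ η) :=
        Real.log_le_log (by linarith) h4
    _ = (1 + η) * Real.log n := by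
        rw [Real.log_mul hn0.ne' (by positivity), Real.log_rpow hn0]
        ring

/-- The two normalisations are equivalent. -/
theorem norm_equiv {K : ℝ} (hK : 0 < K) (h : ∀ a b : ℝ, 0 ≤ a → a < b → ∀ᶠ N : ℕ in atTop,
    F N b - F N a ≤ K * (b - a)) (c : ℝ) (hc : 0 ≤ c) :
    Tendsto (fun N => Fp N c - F N c) atTop (𝓝 0) := by
  classical
  rcases hc.eq_or_lt with rfl | hc0
  · have h1 : ∀ N, Fp N 0 - F N 0 = 0 := by
      intro N
      have h2 : Fp N 0 = 0 := by
        unfold Fp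
        have : (Finset.Icc 1 N).filter (fun n : ℕ =>
          (((Nat.nth Nat.Prime n : ℕ) : ℝ) - ((Nat.nth Nat.Prime (n - 1) : ℕ) : ℝ))
            / Real.log ((Nat.nth Nat.Prime (n - 1) : ℕ) : ℝ) < 0) = ∅ := by
          rw [Finset.filter_eq_empty_iff]
          intro n _
          exact not_lt.mpr (div_nonneg (gap_nonneg n) (Real.log_natCast_nonneg _))
        rw [this]; simp
      rw [h2, F_zero]; ring
    simp only [h1]
    exact tendsto_const_nhds
  · rw [Metric.tendsto_atTop]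
    intro ε hε
    set η : ℝ := ε / (4 * K * c) with hη
    have hη0 : 0 < η := by positivity
    obtain ⟨n0, hn0⟩ := eventually_atTop.mp (log_p_bounds η hη0)
    set n1 : ℕ := max n0 2 with hn1
    have hlarge : ∀ᶠ N : ℕ in atTop, (n1 : ℝ) / N ≤ ε / 4 := by
      have h1 : Tendsto (fun N : ℕ => (n1 : ℝ) / N) atTop (𝓝 0) :=
        tendsto_const_nhds.div_atTop tendsto_natCast_atTop_atTop
      filter_upwards [h1.eventually_lt_const (show (0 : ℝ) < ε / 4 by positivity)] with N hN
      exact hN.le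
    obtain ⟨N0, hN0⟩ := eventually_atTop.mp
      ((h c (c * (1 + η)) hc (by nlinarith)).and (hlarge.and (eventually_gt_atTop 0)))
    refine ⟨N0, ?_⟩
    intro N hN
    obtain ⟨hb, hl, hNpos⟩ := hN0 N hN
    have hNr : (0 : ℝ) < N := by exact_mod_cast hNpos
    rw [Real.dist_eq, sub_zero]
    -- lower bound
    set S := (Icc 1 N).filter (fun n : ℕ => gap n / Real.log n < c) with hS
    set S' := (Icc 1 N).filter (fun n : ℕ =>
      gap n / Real.log ((Nat.nth Nat.Prime (n - 1) : ℕ) : ℝ) < c) with hS'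
    set S'' := (Icc 1 N).filter (fun n : ℕ => gap n / Real.log n < c * (1 + η)) with hS''
    have hF : F N c = (S.card : ℝ) / N := rfl
    have hFp : Fp N c = (S'.card : ℝ) / N := rfl
    have hF'' : F N (c * (1 + η)) = (S''.card : ℝ) / N := rfl
    have hsub1 : S ⊆ S' ∪ range n1 := by
      intro n hn
      rw [hS, Finset.mem_filter] at hn
      rw [Finset.mem_union, Finset.mem_range]
      by_cases hnn : n < n1
      · exact Or.inr hnn
      · left
        push Not at hnn
        have hb := hn0 n ((le_max_left _ _).trans hnn)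
        have hn2 : 2 ≤ n := (le_max_right _ _).trans hnn
        have hln : 0 < Real.log n := Real.log_pos (by exact_mod_cast hn2)
        rw [hS', Finset.mem_filter]
        refine ⟨hn.1, lt_of_le_of_lt ?_ hn.2⟩
        exact div_le_div_of_nonneg_left (gap_nonneg n) hln hb.1
    have hsub2 : S' ⊆ S'' ∪ range n1 := by
      intro n hn
      rw [hS', Finset.mem_filter] at hn
      rw [Finset.mem_union, Finset.mem_range]
      by_cases hnn : n < n1
      · exact Or.inr hnn
      · left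
        push Not at hnn
        have hb := hn0 n ((le_max_left _ _).trans hnn)
        have hn2 : 2 ≤ n := (le_max_right _ _).trans hnn
        have hln : 0 < Real.log n := Real.log_pos (by exact_mod_cast hn2)
        have hlp : 0 < Real.log ((Nat.nth Nat.Prime (n - 1) : ℕ) : ℝ) := by linarith [hb.1]
        rw [hS'', Finset.mem_filter]
        refine ⟨hn.1, ?_⟩
        rw [div_lt_iff₀ hln]
        have h2 := (div_lt_iff₀ hlp).mp hn.2
        calc gap n < c * Real.log ((Nat.nth Nat.Prime (n - 1) : ℕ) : ℝ) := h2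
          _ ≤ c * ((1 + η) * Real.log n) := by
            apply mul_le_mul_of_nonneg_left hb.2 hc
          _ = c * (1 + η) * Real.log n := by ring
    have hc1 := (Finset.card_le_card hsub1).trans (Finset.card_union_le _ _)
    have hc2 := (Finset.card_le_card hsub2).trans (Finset.card_union_le _ _)
    rw [Finset.card_range] at hc1 hc2
    have hc1' : (S.card : ℝ) ≤ S'.card + n1 := by exact_mod_cast hc1
    have hc2' : (S'.card : ℝ) ≤ S''.card + n1 := by exact_mod_cast hc2
    have hd1 : F N c ≤ Fp N c + (n1 : ℝ) / N := by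
      rw [hF, hFp, ← add_div]
      gcongr
    have hd2 : Fp N c ≤ F N (c * (1 + η)) + (n1 : ℝ) / N := by
      rw [hF'', hFp, ← add_div]
      gcongr
    have hK' : K * (c * (1 + η) - c) = ε / 4 := by
      rw [hη]; field_simp; ring
    rw [abs_lt]
    constructor <;> linarith

end Pool.Agent.Helper30.Gap
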