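import Pool.Agent.Helper30.Gap.Upper

/-!
# The empirical distribution functions of the normalised prime gaps
-/

set_option autoImplicit false

open Finset Real Filter Topology

namespace Pool.Agent.Helper30.Gap

/-- `F N c` is the proportion of the integers `1 ≤ n ≤ N` with `(p_{n+1} - p_n) / log n < c`. -/
noncomputable def F (N : ℕ) (c : ℝ) : ℝ :=
  ((((Finset.Icc 1 N).filter (fun n : ℕ =>
    (((Nat.nth Nat.Prime n : ℕ) : ℝ) - ((Nat.nth Nat.Prime (n - 1) : ℕ) : ℝ))
      / Real.log (n : ℝ) < c)).card : ℕ) : ℝ) / (N : ℝ)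

theorem gap_nonneg (n : ℕ) : 0 ≤ gap n := by
  unfold gap
  rw [sub_nonneg]
  exact_mod_cast (Nat.nth_strictMono Nat.infinite_setOfPred_prime).monotone (Nat.sub_le n 1)

theorem x_nonneg (n : ℕ) : 0 ≤ gap n / Real.log n :=
  div_nonneg (gap_nonneg n) (Real.log_natCast_nonneg n)

theorem F_nonneg (N : ℕ) (c : ℝ) : 0 ≤ F N c := by unfold F; positivity

theorem F_le_one (N : ℕ) (c : ℝ) : F N c ≤ 1 := by
  unfold F
  apply div_le_one_of_le₀ _ (Nat.cast_nonneg N)
  have h := Finset.card_filter_le (Icc 1 N) (fun n : ℕ =>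
    (((Nat.nth Nat.Prime n : ℕ) : ℝ) - ((Nat.nth Nat.Prime (n - 1) : ℕ) : ℝ))
      / Real.log (n : ℝ) < c)
  rw [Nat.card_Icc, Nat.add_sub_cancel] at h
  exact_mod_cast h

theorem F_mono (N : ℕ) {c c' : ℝ} (h : c ≤ c') : F N c ≤ F N c' := by
  unfold F
  apply div_le_div_of_nonneg_right _ (Nat.cast_nonneg N)
  have : ((Finset.Icc 1 N).filter (fun n : ℕ =>
    (((Nat.nth Nat.Prime n : ℕ) : ℝ) - ((Nat.nth Nat.Prime (n - 1) : ℕ) : ℝ))
      / Real.log (n : ℝ) < c)).card ≤ ((Finset.Icc 1 N).filter (fun n : ℕ =>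
    (((Nat.nth Nat.Prime n : ℕ) : ℝ) - ((Nat.nth Nat.Prime (n - 1) : ℕ) : ℝ))
      / Real.log (n : ℝ) < c')).card := by
    apply Finset.card_le_card
    apply Finset.monotone_filter_right
    intro n _ hn
    exact lt_of_lt_of_le hn h
  exact_mod_cast this

theorem F_zero (N : ℕ) : F N 0 = 0 := by
  unfold F
  have : (Finset.Icc 1 N).filter (fun n : ℕ =>
    (((Nat.nth Nat.Prime n : ℕ) : ℝ) - ((Nat.nth Nat.Prime (n - 1) : ℕ) : ℝ))
      / Real.log (n : ℝ) < 0) = ∅ := by
    rw [Finset.filter_eq_empty_iff]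
    intro n _
    exact not_lt.mpr (x_nonneg n)
  rw [this]; simp

theorem F_sub (N : ℕ) {a b : ℝ} (hab : a ≤ b) : F N b - F N a =
    (((Icc 1 N).filter (fun n : ℕ => a ≤ gap n / Real.log n ∧ gap n / Real.log n < b)).card : ℝ)
      / N := by
  unfold F
  rw [← sub_div]
  congr 1
  have h : (Finset.Icc 1 N).filter (fun n : ℕ => gap n / Real.log n < b) =
      (Finset.Icc 1 N).filter (fun n : ℕ => gap n / Real.log n < a) ∪
      (Icc 1 N).filter (fun n : ℕ => a ≤ gap n / Real.log n ∧ gap n / Real.log n < b) := by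
    ext n
    simp only [Finset.mem_filter, Finset.mem_union]
    constructor
    · rintro ⟨h1, h2⟩
      by_cases h3 : gap n / Real.log n < a
      · left; exact ⟨h1, h3⟩
      · right; exact ⟨h1, not_lt.mp h3, h2⟩
    · rintro (⟨h1, h2⟩ | ⟨h1, _, h3⟩)
      · exact ⟨h1, lt_of_lt_of_le h2 hab⟩
      · exact ⟨h1, h3⟩
  have hd : Disjoint ((Finset.Icc 1 N).filter (fun n : ℕ => gap n / Real.log n < a))
      ((Icc 1 N).filter (fun n : ℕ => a ≤ gap n / Real.log n ∧ gap n / Real.log n < b)) := by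
    rw [Finset.disjoint_filter]
    intro n _ h1 h2
    exact absurd h1 (not_lt.mpr h2.1)
  have h2 : ((Finset.Icc 1 N).filter (fun n : ℕ => gap n / Real.log n < b)).card =
      ((Finset.Icc 1 N).filter (fun n : ℕ => gap n / Real.log n < a)).card +
      ((Icc 1 N).filter (fun n : ℕ => a ≤ gap n / Real.log n ∧ gap n / Real.log n < b)).card := by
    rw [h, Finset.card_union_of_disjoint hd]
  have h3 : (((Finset.Icc 1 N).filter (fun n : ℕ => gap n / Real.log n < b)).card : ℝ) =
      (((Finset.Icc 1 N).filter (fun n : ℕ => gap n / Real.log n < a)).card : ℝ) +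
      (((Icc 1 N).filter (fun n : ℕ => a ≤ gap n / Real.log n ∧
        gap n / Real.log n < b)).card : ℝ) := by exact_mod_cast h2
  have e : ∀ c : ℝ, (((Finset.Icc 1 N).filter (fun n : ℕ =>
    (((Nat.nth Nat.Prime n : ℕ) : ℝ) - ((Nat.nth Nat.Prime (n - 1) : ℕ) : ℝ))
      / Real.log (n : ℝ) < c)).card : ℝ) =
      (((Finset.Icc 1 N).filter (fun n : ℕ => gap n / Real.log n < c)).card : ℝ) := fun c => rfl
  rw [e a, e b, h3]
  ring

/-- The basic bound: `K` serves for all pairs `a < b`. -/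
theorem F_lip : ∃ K : ℝ, 0 < K ∧ ∀ a b : ℝ, 0 ≤ a → a < b → ∀ᶠ N : ℕ in atTop,
    F N b - F N a ≤ K * (b - a) := by
  obtain ⟨K, hK, h⟩ := upper
  refine ⟨K, hK, ?_⟩
  intro a b ha hab
  filter_upwards [h a b ha hab, eventually_gt_atTop 0] with N hN hN0
  have hN0' : (0 : ℝ) < N := by exact_mod_cast hN0
  rw [F_sub N hab.le, div_le_iff₀ hN0']
  exact hN

/-- Two-sided form of the basic bound, for a fixed constant `K`. -/
theorem F_abs {K : ℝ} (h : ∀ a b : ℝ, 0 ≤ a → a < b → ∀ᶠ N : ℕ in atTop,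
    F N b - F N a ≤ K * (b - a)) (a b : ℝ) (ha : 0 ≤ a) (hb : 0 ≤ b) :
    ∀ᶠ N : ℕ in atTop, |F N a - F N b| ≤ K * |a - b| := by
  rcases lt_trichotomy a b with hab | hab | hab
  · filter_upwards [h a b ha hab] with N hN
    have h1 := F_mono N hab.le
    rw [abs_sub_comm, abs_of_nonneg (by linarith), abs_sub_comm a b, abs_of_nonneg (by linarith)]
    exact hN
  · subst hab
    simp
  · filter_upwards [h b a hb hab] with N hN
    have h1 := F_mono N hab.le
    rw [abs_of_nonneg (by linarith), abs_of_nonneg (by linarith)]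
    exact hN

/-- Limits along a filter are `K`-Lipschitz. -/
theorem lim_abs {K : ℝ} (h : ∀ a b : ℝ, 0 ≤ a → a < b → ∀ᶠ N : ℕ in atTop,
    F N b - F N a ≤ K * (b - a)) {U : Filter ℕ} [U.NeBot] (hU : U ≤ atTop) {a b la lb : ℝ}
    (ha : 0 ≤ a) (hb : 0 ≤ b) (hla : Tendsto (fun N => F N a) U (𝓝 la))
    (hlb : Tendsto (fun N => F N b) U (𝓝 lb)) : |la - lb| ≤ K * |a - b| := by
  have h1 : Tendsto (fun N => |F N a - F N b|) U (𝓝 |la - lb|) := (hla.sub hlb).abs
  exact le_of_tendsto h1 ((F_abs h a b ha hb).filter_mono hU)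

/-- The set of `c` at which `F N c` converges along `U` is closed. -/
theorem conv_closed {K : ℝ} (hK : 0 < K) (h : ∀ a b : ℝ, 0 ≤ a → a < b → ∀ᶠ N : ℕ in atTop,
    F N b - F N a ≤ K * (b - a)) {U : Filter ℕ} [U.NeBot] (hU : U ≤ atTop) {D : Set ℝ}
    (hD : ∀ d ∈ D, 0 ≤ d ∧ ∃ l, Tendsto (fun N => F N d) U (𝓝 l)) {c : ℝ} (hc : c ∈ closure D) :
    0 ≤ c ∧ ∃ l, Tendsto (fun N => F N c) U (𝓝 l) := by
  have hc0 : 0 ≤ c := by
    have : closure D ⊆ Set.Ici 0 := closure_minimal (fun d hd => (hD d hd).1) isClosed_Ici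
    exact this hc
  refine ⟨hc0, ?_⟩
  have hcau : Cauchy (map (fun N => F N c) U) := by
    rw [Metric.cauchy_iff]
    refine ⟨inferInstance, ?_⟩
    intro ε hε
    obtain ⟨d, hdD, hdc⟩ := Metric.mem_closure_iff.mp hc (ε / (4 * K)) (by positivity)
    obtain ⟨hd0, l, hl⟩ := hD d hdD
    refine ⟨Metric.ball l (ε / 2), ?_, ?_⟩
    · rw [Filter.mem_map]
      have h1 := (F_abs h c d hc0 hd0).filter_mono hU
      have h2 : ∀ᶠ N in U, F N d ∈ Metric.ball l (ε / 4) :=
        hl.eventually_mem (Metric.ball_mem_nhds _ (by positivity))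
      filter_upwards [h1, h2] with N hN1 hN2
      rw [Metric.mem_ball, Real.dist_eq] at hN2
      rw [Set.mem_preimage, Metric.mem_ball, Real.dist_eq]
      have h3 : K * |c - d| < ε / 4 := by
        rw [Real.dist_eq] at hdc
        calc K * |c - d| < K * (ε / (4 * K)) := by gcongr
          _ = ε / 4 := by field_simp
      calc |F N c - l| = |(F N c - F N d) + (F N d - l)| := by ring_nf
        _ ≤ |F N c - F N d| + |F N d - l| := abs_add_le _ _
        _ < ε / 2 := by linarith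
    · intro x hx y hy
      rw [Metric.mem_ball] at hx hy
      calc dist x y ≤ dist x l + dist y l := dist_triangle_right x y l
        _ < ε := by linarith
  exact CompleteSpace.complete hcau

/-- Tightness: only few normalised gaps are large. -/
theorem tight : ∀ c : ℝ, 0 < c → ∀ᶠ N : ℕ in atTop, 1 - F N c ≤ 25 / c := by
  classical
  intro c hc
  filter_upwards [eventually_ge_atTop 81, eventually_ge_atTop ⌈c ^ 2⌉₊] with N hN hNc
  have hN1 : (81 : ℝ) ≤ N := by exact_mod_cast hN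
  have hN0 : (0 : ℝ) < N := by linarith
  have hlN : 1 < Real.log N := by
    rw [Real.lt_log_iff_exp_lt hN0]
    have := Real.exp_one_lt_d9
    linarith
  set L : ℝ := Real.log N with hL
  set Bad := (Icc 1 N).filter (fun n : ℕ => ¬ gap n / Real.log n < c) with hBad
  have hF : 1 - F N c = (Bad.card : ℝ) / N := by
    have h1 := Finset.card_filter_add_card_filter_not (s := Icc 1 N)
      (fun n : ℕ => gap n / Real.log n < c)
    rw [Nat.card_Icc, Nat.add_sub_cancel] at h1
    have h2 : (((Icc 1 N).filter (fun n : ℕ => gap n / Real.log n < c)).card : ℝ) +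
      (Bad.card : ℝ) = N := by exact_mod_cast h1
    have h3 : F N c = (((Icc 1 N).filter (fun n : ℕ => gap n / Real.log n < c)).card : ℝ) / N := rfl
    rw [h3, eq_div_iff hN0.ne', sub_mul, div_mul_cancel₀ _ hN0.ne']
    linarith
  rw [hF]
  -- sum of all gaps
  have htel : ∑ n ∈ Icc 1 N, gap n = ((Nat.nth Nat.Prime N : ℕ) : ℝ) - 2 := by
    have : ∀ M : ℕ, ∑ n ∈ Icc 1 M, gap n = ((Nat.nth Nat.Prime M : ℕ) : ℝ) - 2 := by
      intro M
      induction M with
      | zero => simp [Nat.nth_prime_zero_eq_two]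
      | succ M ih =>
        rw [Finset.sum_Icc_succ_top (by omega), ih]
        unfold gap
        rw [Nat.add_sub_cancel]
        ring
    exact this N
  have hpN : ((Nat.nth Nat.Prime N : ℕ) : ℝ) ≤ 10 * N * L := by
    have h1 := nth_lt (N := N + 1) (by omega)
    rw [Nat.add_sub_cancel] at h1
    have h2 : ((Nat.nth Nat.Prime N : ℕ) : ℝ) ≤ (⌈4 * ((N + 1 : ℕ) : ℝ) * Real.log ((N + 1 : ℕ) : ℝ)⌉₊ : ℝ) := by
      exact_mod_cast Nat.lt_succ_iff.mp h1
    have h3 : Real.log ((N + 1 : ℕ) : ℝ) ≤ 2 * L := by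
      have e2 : 2 * L = Real.log ((N : ℝ) ^ 2) := by rw [Real.log_pow, hL]; norm_num
      rw [e2]
      apply Real.log_le_log (by positivity)
      push_cast; nlinarith
    have h4 := Nat.ceil_lt_add_one (a := 4 * ((N + 1 : ℕ) : ℝ) * Real.log ((N + 1 : ℕ) : ℝ))
      (by positivity)
    have h5 : 4 * ((N + 1 : ℕ) : ℝ) * Real.log ((N + 1 : ℕ) : ℝ) ≤ 4 * ((N + 1 : ℕ) : ℝ) * (2 * L) := by
      gcongr
    push_cast at h5 h4 h2
    nlinarith
  -- the bad indices beyond `sqrt N`
  have hsq : 0 < Real.sqrt N := Real.sqrt_pos.mpr hN0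
  have hsplit : (Bad.card : ℝ) ≤ Real.sqrt N + 20 * N / c := by
    have hsub : Bad ⊆ Icc 1 ⌊Real.sqrt N⌋₊ ∪ Bad.filter (fun n : ℕ => Real.sqrt N < n) := by
      intro n hn
      rw [Finset.mem_union]
      by_cases hns : Real.sqrt N < n
      · right; exact Finset.mem_filter.mpr ⟨hn, hns⟩
      · left
        rw [Finset.mem_Icc]
        exact ⟨(Finset.mem_Icc.mp (Finset.mem_filter.mp hn).1).1, Nat.le_floor (not_lt.mp hns)⟩
    have h1 := (Finset.card_le_card hsub).trans (Finset.card_union_le _ _)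
    rw [Nat.card_Icc, Nat.add_sub_cancel] at h1
    have h2 : (Bad.card : ℝ) ≤ (⌊Real.sqrt N⌋₊ : ℝ) +
        ((Bad.filter (fun n : ℕ => Real.sqrt N < n)).card : ℝ) := by exact_mod_cast h1
    have h3 : (⌊Real.sqrt N⌋₊ : ℝ) ≤ Real.sqrt N := Nat.floor_le hsq.le
    have h4 : ((Bad.filter (fun n : ℕ => Real.sqrt N < n)).card : ℝ) * (c * (L / 2)) ≤
        ∑ n ∈ Icc 1 N, gap n := by
      calc _ = ∑ n ∈ Bad.filter (fun n : ℕ => Real.sqrt N < n), c * (L / 2) := by
            rw [Finset.sum_const, nsmul_eq_mul]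
        _ ≤ ∑ n ∈ Bad.filter (fun n : ℕ => Real.sqrt N < n), gap n := by
            apply Finset.sum_le_sum
            intro n hn
            rw [Finset.mem_filter] at hn
            obtain ⟨hn1, hn2⟩ := hn
            rw [hBad, Finset.mem_filter, not_lt] at hn1
            have hlog : L / 2 < Real.log n := by
              have h5 : Real.log (Real.sqrt N) = L / 2 := by rw [Real.log_sqrt hN0.le]
              rw [← h5]
              exact Real.log_lt_log hsq hn2
            have hlog0 : 0 < Real.log n := by linarith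
            have h6 := (le_div_iff₀ hlog0).mp hn1.2
            calc c * (L / 2) ≤ c * Real.log n := by gcongr
              _ ≤ gap n := h6
        _ ≤ ∑ n ∈ Icc 1 N, gap n := by
            apply Finset.sum_le_sum_of_subset_of_nonneg
            · intro n hn
              exact (Finset.mem_filter.mp (Finset.mem_filter.mp hn).1).1
            · intro n _ _; exact gap_nonneg n
    have h5 : ((Bad.filter (fun n : ℕ => Real.sqrt N < n)).card : ℝ) ≤ 20 * N / c := by
      rw [le_div_iff₀ hc]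
      rw [htel] at h4
      have h6 : ((Bad.filter (fun n : ℕ => Real.sqrt N < n)).card : ℝ) * c * (L / 2) ≤
          20 * N * (L / 2) := by nlinarith
      exact le_of_mul_le_mul_right h6 (by linarith)
    linarith
  have hcN : c * Real.sqrt N ≤ N := by
    have h1 : c ^ 2 ≤ (N : ℝ) := (Nat.le_ceil _).trans (by exact_mod_cast hNc)
    have h2 : c ≤ Real.sqrt N := Real.le_sqrt_of_sq_le h1
    calc c * Real.sqrt N ≤ Real.sqrt N * Real.sqrt N := by gcongr
      _ = N := Real.mul_self_sqrt hN0.le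
  rw [div_le_div_iff₀ hN0 hc]
  have h7 : (Bad.card : ℝ) * c ≤ (Real.sqrt N + 20 * N / c) * c := by gcongr
  have h8 : (Real.sqrt N + 20 * N / c) * c = c * Real.sqrt N + 20 * N := by field_simp
  linarith

end Pool.Agent.Helper30.Gap
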