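import Pool.Agent.Helper96.CPAP.SieveK
import Pool.Agent.Helper96.CPAP.Count
import Pool.Agent.Helper44.MertensProd

/-!
# An upper bound sieve for pairs of primes with a given difference

`#{m < N : m and m + h are prime} ≤ C * G h * N / log^2 N`, uniformly in `h ≥ 1`,
where `G h = ∏_{q ∣ h} (1 - 1/q)^{-2}`.
-/

set_option autoImplicit false

open Finset Real

namespace Pool.Agent.Helper30.Gap

open Pool.Agent.Helper44 Pool.Agent.Helper96.CPAP

/-- `G h = ∏_{q ∣ h} (1 - 1/q)^{-2}`. -/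
noncomputable def G (h : ℕ) : ℝ := ∏ q ∈ h.primeFactors, ((1 - (1 : ℝ) / q) ^ 2)⁻¹

theorem one_sub_inv_pos {q : ℕ} (hq : q.Prime) : (0 : ℝ) < 1 - (1 : ℝ) / q := by
  have h2 : (2 : ℝ) ≤ q := by exact_mod_cast hq.two_le
  rw [sub_pos, div_lt_one (by linarith)]
  linarith

theorem one_sub_inv_lt {q : ℕ} (hq : q.Prime) : 1 - (1 : ℝ) / q < 1 := by
  have h2 : (2 : ℝ) ≤ q := by exact_mod_cast hq.two_le
  have : (0 : ℝ) < 1 / q := by positivity
  linarith

theorem one_le_G (h : ℕ) : 1 ≤ G h := by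
  unfold G
  apply Finset.one_le_prod
  intro q hq
  have hq' := Nat.prime_of_mem_primeFactors hq
  rw [one_le_inv₀ (by have := one_sub_inv_pos hq'; positivity)]
  have h1 := one_sub_inv_pos hq'
  have h2 := one_sub_inv_lt hq'
  nlinarith

/-- The primes used in the sieve: `q > 3` not dividing `h`. -/
def Pr (h : ℕ) (q : ℕ) : Prop := q.Prime ∧ 4 ≤ q ∧ ¬ q ∣ h

theorem prod_pU_le {h : ℕ} (hh : h ≠ 0) {w : ℝ} (hw : 0 ≤ w) :
    ∏ q ∈ pU (Pr h) w, (1 - (2 : ℝ) / q) ≤
      9 * G h * (∏ q ∈ primesUpTo w, (1 - (1 : ℝ) / q)) ^ 2 := by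
  classical
  have hpU : pU (Pr h) w = (primesUpTo w).filter (Pr h) := by
    unfold pU; congr!
  -- compare factors
  have h1 : ∏ q ∈ pU (Pr h) w, (1 - (2 : ℝ) / q) ≤ ∏ q ∈ pU (Pr h) w, (1 - (1 : ℝ) / q) ^ 2 := by
    apply Finset.prod_le_prod
    · intro q hq
      rw [mem_pU (fun q h => h.1) hw] at hq
      have h4 : (4 : ℝ) ≤ q := by exact_mod_cast hq.1.2.1
      rw [sub_nonneg, div_le_one (by linarith)]
      linarith
    · intro q hq
      have : (0 : ℝ) ≤ (1 / q) ^ 2 := by positivity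
      have e : (1 - (1 : ℝ) / q) ^ 2 = 1 - 2 / q + (1 / q) ^ 2 := by ring
      rw [e]; linarith
  have hsplit : (∏ q ∈ primesUpTo w, (1 - (1 : ℝ) / q)) ^ 2 =
      (∏ q ∈ pU (Pr h) w, (1 - (1 : ℝ) / q) ^ 2) *
      ∏ q ∈ (primesUpTo w).filter (fun q => ¬ Pr h q), (1 - (1 : ℝ) / q) ^ 2 := by
    rw [hpU, ← Finset.prod_pow, Finset.prod_filter_mul_prod_filter_not]
  set R := (primesUpTo w).filter (fun q => ¬ Pr h q) with hR
  set T : Finset ℕ := {2, 3} with hT
  have hTp : ∀ q ∈ T, q.Prime := by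
    intro q hq; rw [hT] at hq; simp only [Finset.mem_insert, Finset.mem_singleton] at hq
    rcases hq with rfl | rfl
    · exact Nat.prime_two
    · exact Nat.prime_three
  have hUp : ∀ q ∈ T ∪ h.primeFactors, q.Prime := by
    intro q hq
    rcases Finset.mem_union.mp hq with h' | h'
    · exact hTp q h'
    · exact Nat.prime_of_mem_primeFactors h'
  have hfac : ∀ q : ℕ, q.Prime → (0 : ℝ) < (1 - (1 : ℝ) / q) ^ 2 ∧ (1 - (1 : ℝ) / q) ^ 2 ≤ 1 := by
    intro q hq
    have h1 := one_sub_inv_pos hq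
    have h2 := one_sub_inv_lt hq
    exact ⟨by positivity, by nlinarith⟩
  have hRsub : R ⊆ T ∪ h.primeFactors := by
    intro q hq
    rw [hR, Finset.mem_filter, mem_primesUpTo hw] at hq
    obtain ⟨⟨hqp, _⟩, hn⟩ := hq
    rw [Finset.mem_union]
    by_cases h3 : 4 ≤ q
    · right
      rw [Nat.mem_primeFactors]
      refine ⟨hqp, ?_, hh⟩
      by_contra hnd
      exact hn ⟨hqp, h3, hnd⟩
    · left
      have := hqp.two_le
      rw [hT]; simp only [Finset.mem_insert, Finset.mem_singleton]; omega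
  have hprodpos : ∀ s : Finset ℕ, (∀ q ∈ s, q.Prime) →
      0 < ∏ q ∈ s, (1 - (1 : ℝ) / q) ^ 2 ∧ ∏ q ∈ s, (1 - (1 : ℝ) / q) ^ 2 ≤ 1 := by
    intro s hs
    exact ⟨Finset.prod_pos fun q hq => (hfac q (hs q hq)).1,
      Finset.prod_le_one (fun q hq => (hfac q (hs q hq)).1.le) fun q hq => (hfac q (hs q hq)).2⟩
  have hRge : ∏ q ∈ T ∪ h.primeFactors, (1 - (1 : ℝ) / q) ^ 2 ≤
      ∏ q ∈ R, (1 - (1 : ℝ) / q) ^ 2 := by
    rw [← Finset.prod_sdiff hRsub]
    have h5 := hprodpos ((T ∪ h.primeFactors) \ R) (fun q hq => hUp q (Finset.mem_sdiff.mp hq).1)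
    have h6 := hprodpos R (fun q hq => hUp q (hRsub hq))
    nlinarith [h5.1, h5.2, h6.1]
  have hU := Finset.prod_union_inter (s₁ := T) (s₂ := h.primeFactors)
    (f := fun q : ℕ => (1 - (1 : ℝ) / q) ^ 2)
  have hI := hprodpos (T ∩ h.primeFactors) (fun q hq => hTp q (Finset.mem_inter.mp hq).1)
  have hUpos := hprodpos _ hUp
  have hTv : ∏ q ∈ T, (1 - (1 : ℝ) / (q : ℝ)) ^ 2 = 1 / 9 := by
    rw [hT, Finset.prod_pair (by norm_num)]; norm_num
  have hGv : ∏ q ∈ h.primeFactors, (1 - (1 : ℝ) / (q : ℝ)) ^ 2 = (G h)⁻¹ := by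
    unfold G; rw [Finset.prod_inv_distrib, inv_inv]
  have hG1 := one_le_G h
  have hG0 : 0 < G h := by linarith
  have hge : (1 / 9) * (G h)⁻¹ ≤ ∏ q ∈ R, (1 - (1 : ℝ) / q) ^ 2 := by
    rw [← hTv, ← hGv, ← hU]
    calc _ ≤ ∏ q ∈ T ∪ h.primeFactors, (1 - (1 : ℝ) / (q : ℝ)) ^ 2 := by
          nlinarith [hI.2, hI.1, hUpos.1]
      _ ≤ _ := hRge
  have hP0 := (hprodpos (pU (Pr h) w) (fun q hq => by
    rw [mem_pU (fun q h => h.1) hw] at hq; exact hq.1.1)).1
  rw [hsplit]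
  have h7 : 1 ≤ 9 * G h * ∏ q ∈ R, (1 - (1 : ℝ) / q) ^ 2 := by
    have : 9 * G h * ((1 / 9) * (G h)⁻¹) = 1 := by field_simp
    calc (1 : ℝ) = 9 * G h * ((1 / 9) * (G h)⁻¹) := this.symm
      _ ≤ _ := by
        apply mul_le_mul_of_nonneg_left hge; positivity
  calc ∏ q ∈ pU (Pr h) w, (1 - (2 : ℝ) / q) ≤ ∏ q ∈ pU (Pr h) w, (1 - (1 : ℝ) / q) ^ 2 := h1
    _ = (∏ q ∈ pU (Pr h) w, (1 - (1 : ℝ) / q) ^ 2) * 1 := (mul_one _).symm
    _ ≤ (∏ q ∈ pU (Pr h) w, (1 - (1 : ℝ) / q) ^ 2) *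
        (9 * G h * ∏ q ∈ R, (1 - (1 : ℝ) / q) ^ 2) := mul_le_mul_of_nonneg_left h7 hP0.le
    _ = _ := by ring

theorem pair_bound : ∃ C : ℝ, 0 < C ∧ ∀ N : ℕ, 2 ≤ N → ∀ h : ℕ, h ≠ 0 →
    (((range N).filter (fun m => m.Prime ∧ (m + h).Prime)).card : ℝ) ≤
      C * G h * N / (Real.log N) ^ 2 := by
  classical
  obtain ⟨K, c, hK, -, hsv⟩ := sieveK 2
  obtain ⟨_, C1, _, hC1, hM⟩ := mertens_prod
  refine ⟨72 * K ^ 2 * C1 ^ 2 + 48 + (K * Real.log 4) ^ 2, by positivity, ?_⟩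
  intro N hN h hh
  have hN1 : (2 : ℝ) ≤ N := by exact_mod_cast hN
  have hN0 : (0 : ℝ) < N := by linarith
  have hlN : 0 < Real.log N := Real.log_pos (by linarith)
  have hG := one_le_G h
  have hG0 : 0 < G h := by linarith
  by_cases hsmall : (N : ℝ) < (4 : ℝ) ^ K
  · -- trivial bound
    have hcard : (((range N).filter (fun m => m.Prime ∧ (m + h).Prime)).card : ℝ) ≤ N := by
      have := Finset.card_filter_le (range N) (fun m => m.Prime ∧ (m + h).Prime)
      rw [Finset.card_range] at this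
      exact_mod_cast this
    have hlog : Real.log N ≤ K * Real.log 4 := by
      rw [← Real.log_rpow (by norm_num)]
      exact Real.log_le_log hN0 hsmall.le
    rw [le_div_iff₀ (by positivity)]
    have h1 : (Real.log N) ^ 2 ≤ (K * Real.log 4) ^ 2 := by
      apply pow_le_pow_left₀ hlN.le hlog
    have h2 : (0 : ℝ) ≤ 72 * K ^ 2 * C1 ^ 2 + 48 := by positivity
    calc _ ≤ (N : ℝ) * (K * Real.log 4) ^ 2 := by gcongr
      _ = (K * Real.log 4) ^ 2 * 1 * N := by ring
      _ ≤ (72 * K ^ 2 * C1 ^ 2 + 48 + (K * Real.log 4) ^ 2) * G h * N := by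
        gcongr
        linarith
  · push Not at hsmall
    set w : ℝ := (N : ℝ) ^ (1 / (2 * K)) with hw
    have hK0 : (0 : ℝ) < K := by linarith
    have hw2 : 2 ≤ w := by
      have h4 : (2 : ℝ) = ((4 : ℝ) ^ K) ^ (1 / (2 * K)) := by
        rw [← Real.rpow_mul (by norm_num)]
        have : K * (1 / (2 * K)) = 1 / 2 := by field_simp
        rw [this, show (4 : ℝ) = 2 ^ (2 : ℝ) by norm_num, ← Real.rpow_mul (by norm_num)]
        norm_num
      rw [h4, hw]
      apply Real.rpow_le_rpow (by positivity) hsmall (by positivity)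
    have hw0 : (0 : ℝ) ≤ w := by linarith
    have hwK : w ^ K = Real.sqrt N := by
      rw [hw, ← Real.rpow_mul hN0.le, Real.sqrt_eq_rpow]
      congr 1; field_simp
    have hwle : w ≤ Real.sqrt N := by
      rw [← hwK]
      calc w = w ^ (1 : ℝ) := (Real.rpow_one w).symm
        _ ≤ w ^ K := Real.rpow_le_rpow_of_exponent_le (by linarith) hK
    have hlogw : Real.log w = Real.log N / (2 * K) := by
      rw [hw, Real.log_rpow hN0]; ring
    have hlw : 0 < Real.log w := Real.log_pos (by linarith)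
    have key := (hsv ℕ (Pr h) (fun q hq => ⟨hq.1, hq.2.1⟩) (fun _ => 2)
      (fun q _ => ⟨by norm_num, by norm_num⟩) w hw2 (range N)
      (fun q n => ∃ i < 2, q ∣ 0 + 1 * n + i * h) N 1 hN0.le (by norm_num) (by
        intro I hI
        have := count_bound (M := 1) (a := 0) (d := h) (k := 2) I (fun q hq => by
          have hq' := (hI q hq).1
          refine ⟨hq'.1, ?_, hq'.2.2, by have := hq'.2.1; omega⟩
          rw [Nat.dvd_one]; exact hq'.1.one_lt.ne') N
        exact_mod_cast this)).1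
    rw [evCount_eq] at key
    have hcard : (((range N).filter (fun m => m.Prime ∧ (m + h).Prime)).card : ℝ) ≤
        (((range N).filter (fun n => ∀ q : ℕ, Pr h q → (q : ℝ) ≤ w →
          ¬ ∃ i < 2, q ∣ 0 + 1 * n + i * h)).card : ℝ) + (w + 1) := by
      have hsub : (range N).filter (fun m => m.Prime ∧ (m + h).Prime) ⊆
          (range N).filter (fun n => ∀ q : ℕ, Pr h q → (q : ℝ) ≤ w →
          ¬ ∃ i < 2, q ∣ 0 + 1 * n + i * h) ∪ range (⌊w⌋₊ + 1) := by
        intro m hm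
        rw [Finset.mem_filter] at hm
        rw [Finset.mem_union, Finset.mem_filter, Finset.mem_range (n := ⌊w⌋₊ + 1)]
        by_cases hmw : (m : ℝ) ≤ w
        · right
          have := (Nat.le_floor_iff hw0).mpr hmw
          omega
        · left
          push Not at hmw
          refine ⟨hm.1, ?_⟩
          intro q hq hqw ⟨i, hi, hdvd⟩
          have hi' : i = 0 ∨ i = 1 := by omega
          rcases hi' with rfl | rfl
          · have h1 : q ∣ m := by simpa using hdvd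
            have h2 := (Nat.prime_dvd_prime_iff_eq hq.1 hm.2.1).mp h1
            rw [h2] at hqw; linarith
          · have h1 : q ∣ m + h := by simpa using hdvd
            have h2 := (Nat.prime_dvd_prime_iff_eq hq.1 hm.2.2).mp h1
            rw [h2] at hqw
            push_cast at hqw
            have : (0 : ℝ) ≤ h := Nat.cast_nonneg h
            linarith
      have h1 := (Finset.card_le_card hsub).trans (Finset.card_union_le _ _)
      rw [Finset.card_range] at h1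
      have h2 : ((⌊w⌋₊ + 1 : ℕ) : ℝ) ≤ w + 1 := by
        push_cast; linarith [Nat.floor_le hw0]
      calc _ ≤ ((((range N).filter (fun n => ∀ q : ℕ, Pr h q → (q : ℝ) ≤ w →
          ¬ ∃ i < 2, q ∣ 0 + 1 * n + i * h)).card + (⌊w⌋₊ + 1) : ℕ) : ℝ) := by exact_mod_cast h1
        _ ≤ _ := by push_cast at h2 ⊢; linarith
    have hprod := prod_pU_le hh hw0
    have hmer := (hM w hw2).2
    have hmer0 : 0 ≤ ∏ q ∈ primesUpTo w, (1 - (1 : ℝ) / q) := by
      apply Finset.prod_nonneg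
      intro q hq
      rw [mem_primesUpTo hw0] at hq
      exact (one_sub_inv_pos hq.1).le
    have hsqC : (∏ q ∈ primesUpTo w, (1 - (1 : ℝ) / q)) ^ 2 ≤ (C1 / Real.log w) ^ 2 :=
      pow_le_pow_left₀ hmer0 hmer 2
    have hlog16 : (Real.log N) ^ 2 ≤ 16 * Real.sqrt N := by
      have h1 := Real.log_le_rpow_div hN0.le (show (0 : ℝ) < 1 / 4 by norm_num)
      have h2 : Real.log N ≤ 4 * (N : ℝ) ^ (1 / 4 : ℝ) := by linarith
      calc (Real.log N) ^ 2 ≤ (4 * (N : ℝ) ^ (1 / 4 : ℝ)) ^ 2 := pow_le_pow_left₀ hlN.le h2 2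
        _ = 16 * ((N : ℝ) ^ (1 / 4 : ℝ)) ^ 2 := by ring
        _ = 16 * Real.sqrt N := by
          rw [← Real.rpow_natCast ((N : ℝ) ^ (1 / 4 : ℝ)) 2, ← Real.rpow_mul hN0.le,
            Real.sqrt_eq_rpow]
          norm_num
    have hsq1 : 1 ≤ Real.sqrt N := by
      rw [Real.one_le_sqrt]; linarith
    have hsqN : Real.sqrt N * Real.sqrt N = N := Real.mul_self_sqrt hN0.le
    rw [le_div_iff₀ (by positivity)]
    have hA : (((range N).filter (fun m => m.Prime ∧ (m + h).Prime)).card : ℝ) ≤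
        2 * N * (9 * G h * (C1 / Real.log w) ^ 2) + 3 * Real.sqrt N := by
      have h3 : 2 * (N : ℝ) * ∏ q ∈ pU (Pr h) w, (1 - (2 : ℝ) / q) ≤
          2 * N * (9 * G h * (C1 / Real.log w) ^ 2) := by
        apply mul_le_mul_of_nonneg_left _ (by positivity)
        exact hprod.trans (mul_le_mul_of_nonneg_left hsqC (by positivity))
      rw [hwK] at key
      calc _ ≤ _ := hcard
        _ ≤ _ := by linarith
    have hB : 2 * (N : ℝ) * (9 * G h * (C1 / Real.log w) ^ 2) * (Real.log N) ^ 2 =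
        72 * K ^ 2 * C1 ^ 2 * G h * N := by
      rw [hlogw]; field_simp; ring
    have hC : 3 * Real.sqrt N * (Real.log N) ^ 2 ≤ 48 * G h * N := by
      calc 3 * Real.sqrt N * (Real.log N) ^ 2 ≤ 3 * Real.sqrt N * (16 * Real.sqrt N) := by gcongr
        _ = 48 * (Real.sqrt N * Real.sqrt N) := by ring
        _ = 48 * 1 * N := by rw [hsqN]; ring
        _ ≤ 48 * G h * N := by gcongr
    have hD : (0 : ℝ) ≤ (K * Real.log 4) ^ 2 * G h * N := by positivity
    calc _ ≤ (2 * N * (9 * G h * (C1 / Real.log w) ^ 2) + 3 * Real.sqrt N) * (Real.log N) ^ 2 := by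
          gcongr
      _ = 2 * (N : ℝ) * (9 * G h * (C1 / Real.log w) ^ 2) * (Real.log N) ^ 2 +
          3 * Real.sqrt N * (Real.log N) ^ 2 := by ring
      _ ≤ 72 * K ^ 2 * C1 ^ 2 * G h * N + 48 * G h * N := by rw [hB]; linarith
      _ ≤ _ := by nlinarith

end Pool.Agent.Helper30.Gap
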