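import Pool.Agent.Helper30.Gap.AvgG

/-!
# Normalised prime gaps in short ranges: the upper bound `K (b - a)`
-/

set_option autoImplicit false

open Finset Real Filter

namespace Pool.Agent.Helper30.Gap

/-- The `n`-th prime gap `p_{n+1} - p_n` (with `p_1 = 2`), as a real number. -/
noncomputable def gap (n : ℕ) : ℝ :=
  ((Nat.nth Nat.Prime n : ℕ) : ℝ) - ((Nat.nth Nat.Prime (n - 1) : ℕ) : ℝ)

theorem growth {N : ℕ} (hN : 81 ≤ N) : 4 * (N : ℝ) * Real.log N + 2 ≤ (N : ℝ) ^ 2 := by
  have hN1 : (81 : ℝ) ≤ N := by exact_mod_cast hN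
  have hN0 : (0 : ℝ) < N := by linarith
  have h1 := Real.log_le_rpow_div hN0.le (show (0 : ℝ) < 1 / 2 by norm_num)
  rw [← Real.sqrt_eq_rpow] at h1
  have h2 : Real.log N ≤ 2 * Real.sqrt N := by linarith
  have h3 : 9 ≤ Real.sqrt N := by
    rw [show (9 : ℝ) = Real.sqrt 81 by
      rw [show (81 : ℝ) = 9 ^ 2 by norm_num, Real.sqrt_sq (by norm_num)]]
    exact Real.sqrt_le_sqrt hN1
  have h4 : Real.sqrt N * Real.sqrt N = N := Real.mul_self_sqrt hN0.le
  have h5 : 9 * Real.sqrt N ≤ N := by nlinarith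
  calc 4 * (N : ℝ) * Real.log N + 2 ≤ 4 * N * (2 * Real.sqrt N) + N := by
        have : 4 * (N : ℝ) * Real.log N ≤ 4 * N * (2 * Real.sqrt N) := by gcongr
        linarith
    _ ≤ N * (9 * Real.sqrt N) := by nlinarith
    _ ≤ N * N := by gcongr
    _ = (N : ℝ) ^ 2 := by ring

theorem nth_lt {N : ℕ} (hN : 81 ≤ N) :
    Nat.nth Nat.Prime (N - 1) < ⌈4 * (N : ℝ) * Real.log N⌉₊ + 1 := by
  have hN1 : (81 : ℝ) ≤ N := by exact_mod_cast hN
  have hN0 : (0 : ℝ) < N := by linarith
  have hlN : 1 < Real.log N := by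
    rw [Real.lt_log_iff_exp_lt hN0]
    have := Real.exp_one_lt_d9
    linarith
  have hg := growth hN
  set X : ℕ := ⌈4 * (N : ℝ) * Real.log N⌉₊ with hX
  have hX1 : 4 * (N : ℝ) * Real.log N ≤ X := Nat.le_ceil _
  have hX2 : (X : ℝ) < 4 * (N : ℝ) * Real.log N + 1 := Nat.ceil_lt_add_one (by positivity)
  have hXN : (N : ℝ) ≤ X := by nlinarith
  have hX0 : (1 : ℝ) < X := by linarith
  have hlogX : Real.log X ≤ 2 * Real.log N := by
    rw [show 2 * Real.log N = Real.log ((N : ℝ) ^ 2) by rw [Real.log_pow]; norm_num]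
    exact Real.log_le_log (by linarith) (by linarith)
  have hlogX1 : Real.log ((X : ℝ) + 1) ≤ 2 * Real.log N := by
    rw [show 2 * Real.log N = Real.log ((N : ℝ) ^ 2) by rw [Real.log_pow]; norm_num]
    exact Real.log_le_log (by linarith) (by linarith)
  have hlX0 : 0 < Real.log X := Real.log_pos hX0
  have hpi := Chebyshev.pi_ge X
  have hlog2 := Real.log_two_gt_d9
  have hnum : 4 * (N : ℝ) * Real.log N * Real.log 2 - 2 * Real.log N ≤
      X * Real.log 2 - Real.log ((X : ℝ) + 1) := by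
    have : 4 * (N : ℝ) * Real.log N * Real.log 2 ≤ X * Real.log 2 :=
      mul_le_mul_of_nonneg_right hX1 (by linarith)
    linarith
  have hnumpos : 0 ≤ 4 * (N : ℝ) * Real.log N * Real.log 2 - 2 * Real.log N := by
    have : 2 * Real.log N ≤ 4 * (N : ℝ) * Real.log N * Real.log 2 := by
      have h1 : (2 : ℝ) ≤ 4 * N * Real.log 2 := by nlinarith
      nlinarith
    linarith
  have hge : (N : ℝ) ≤ (Nat.primeCounting X : ℝ) := by
    calc (N : ℝ) ≤ (4 * (N : ℝ) * Real.log N * Real.log 2 - 2 * Real.log N) / (2 * Real.log N) := by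
          rw [le_div_iff₀ (by linarith)]
          nlinarith
      _ ≤ (4 * (N : ℝ) * Real.log N * Real.log 2 - 2 * Real.log N) / Real.log X := by
          apply div_le_div_of_nonneg_left hnumpos hlX0 hlogX
      _ ≤ (X * Real.log 2 - Real.log ((X : ℝ) + 1)) / Real.log X := by
          gcongr
      _ ≤ _ := hpi
  have hge' : N ≤ Nat.primeCounting X := by exact_mod_cast hge
  apply Nat.nth_lt_of_lt_count
  have : Nat.count Nat.Prime (X + 1) = Nat.primeCounting X := rfl
  omega

theorem upper : ∃ K : ℝ, 0 < K ∧ ∀ a b : ℝ, 0 ≤ a → a < b → ∀ᶠ N : ℕ in atTop,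
    (((Icc 1 N).filter (fun n : ℕ => a ≤ gap n / Real.log n ∧ gap n / Real.log n < b)).card : ℝ) ≤
      K * (b - a) * N := by
  classical
  obtain ⟨C, hC, hpair⟩ := pair_bound
  obtain ⟨C', hC', havg⟩ := avg_G
  refine ⟨5 * C * C' + 3, by positivity, ?_⟩
  intro a b ha hab
  have hba : 0 < b - a := by linarith
  have hb : 0 < b := by linarith
  by_cases hbig : 1 ≤ b - a
  · filter_upwards with N
    have h1 := Finset.card_filter_le (Icc 1 N)
      (fun n : ℕ => a ≤ gap n / Real.log n ∧ gap n / Real.log n < b)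
    rw [Nat.card_Icc, Nat.add_sub_cancel] at h1
    have h2 : (((Icc 1 N).filter (fun n : ℕ => a ≤ gap n / Real.log n ∧
      gap n / Real.log n < b)).card : ℝ) ≤ N := by exact_mod_cast h1
    have h3 : (0 : ℝ) ≤ N := Nat.cast_nonneg N
    have h4 : 0 < 5 * C * C' := by positivity
    have h5 : 1 ≤ (5 * C * C' + 3) * (b - a) := by nlinarith
    nlinarith
  push Not at hbig
  set ε : ℝ := b - a with hε
  have hlogε : Real.log ε < 0 := Real.log_neg hba hbig
  set c0 : ℝ := a * (-Real.log ε) + 1 with hc0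
  have hc0pos : 0 < c0 := by
    have : 0 ≤ a * (-Real.log ε) := mul_nonneg ha (by linarith)
    linarith
  set δ : ℝ := ε / (5 * C * C') with hδ
  have hδ0 : 0 < δ := by positivity
  have hlogtend : Tendsto (fun N : ℕ => Real.log (N : ℝ)) atTop atTop :=
    Real.tendsto_log_atTop.comp tendsto_natCast_atTop_atTop
  filter_upwards [eventually_ge_atTop 81, hlogtend.eventually_ge_atTop (2 * c0 / δ),
    hlogtend.eventually_ge_atTop (4 * b / δ ^ 2), hlogtend.eventually_ge_atTop (-Real.log ε)]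
    with N hN hL1 hL2 hL3
  have hN1 : (81 : ℝ) ≤ N := by exact_mod_cast hN
  have hN0 : (0 : ℝ) < N := by linarith
  have hlN : 1 < Real.log N := by
    rw [Real.lt_log_iff_exp_lt hN0]
    have := Real.exp_one_lt_d9
    linarith
  set L : ℝ := Real.log N with hL
  -- the sieve range
  set M : ℕ := ⌈4 * (N : ℝ) * L⌉₊ + 1 with hM
  have hMlow : 4 * (N : ℝ) * L ≤ (M : ℝ) := by
    rw [hM]; push_cast
    have := Nat.le_ceil (4 * (N : ℝ) * L)
    linarith
  have hMup : (M : ℝ) ≤ 5 * N * L := by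
    rw [hM]; push_cast
    have := Nat.ceil_lt_add_one (a := 4 * (N : ℝ) * L) (by positivity)
    nlinarith
  have hMN : (N : ℝ) ≤ M := by nlinarith
  have hM2 : 2 ≤ M := by
    have : (2 : ℝ) ≤ M := by linarith
    exact_mod_cast this
  -- range of gaps
  set x : ℝ := a * (L + Real.log ε) with hx
  have hx0 : 0 ≤ x := mul_nonneg ha (by linarith)
  set A : ℕ := ⌈x⌉₊ - 1 with hA
  set B : ℕ := ⌊b * L⌋₊ with hB
  have hBup : (B : ℝ) ≤ b * L := Nat.floor_le (by positivity)
  have hAup : (A : ℝ) ≤ x := by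
    rcases Nat.eq_zero_or_pos ⌈x⌉₊ with h | h
    · rw [hA, h]; simpa using hx0
    · rw [hA, Nat.cast_sub h]
      have := Nat.ceil_lt_add_one hx0
      push_cast; linarith
  have hAlow : x - 1 ≤ (A : ℝ) := by
    have h1 := Nat.le_ceil x
    have h2 : ⌈x⌉₊ ≤ A + 1 := by omega
    have h3 : ((⌈x⌉₊ : ℕ) : ℝ) ≤ (A : ℝ) + 1 := by exact_mod_cast h2
    linarith
  have hAB : A ≤ B := by
    rw [hB]
    apply Nat.le_floor
    refine hAup.trans ?_
    rw [hx]
    nlinarith
  have hBA : (B : ℝ) - A ≤ ε * L + c0 := by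
    have : ε * L + c0 = b * L - x + 1 := by rw [hc0, hx, hε]; ring
    linarith
  -- the covering
  have hcover : (Icc 1 N).filter (fun n : ℕ => a ≤ gap n / Real.log n ∧ gap n / Real.log n < b) ⊆
      Icc 1 ⌊ε * N⌋₊ ∪ (Icc 1 N).filter (fun n : ℕ => ∃ h ∈ Ioc A B,
        Nat.nth Nat.Prime (n - 1) < M ∧ (Nat.nth Nat.Prime (n - 1)).Prime ∧
        (Nat.nth Nat.Prime (n - 1) + h).Prime) := by
    intro n hn
    rw [Finset.mem_filter, Finset.mem_Icc] at hn
    obtain ⟨⟨hn1, hnN⟩, hna, hnb⟩ := hn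
    rw [Finset.mem_union]
    by_cases hsm : (n : ℝ) ≤ ε * N
    · left
      rw [Finset.mem_Icc]
      exact ⟨hn1, Nat.le_floor hsm⟩
    · right
      push Not at hsm
      have hn0 : (0 : ℝ) < n := by exact_mod_cast hn1
      have hlogn : L + Real.log ε < Real.log n := by
        rw [hL, ← Real.log_mul hN0.ne' hba.ne', mul_comm]
        exact Real.log_lt_log (by positivity) hsm
      have hlogn0 : 0 < Real.log n := by linarith
      have hlognN : Real.log n ≤ L := Real.log_le_log hn0 (by exact_mod_cast hnN)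
      have hlt : Nat.nth Nat.Prime (n - 1) < Nat.nth Nat.Prime n :=
        Nat.nth_strictMono Nat.infinite_setOfPred_prime (by omega)
      have hgap : gap n = ((Nat.nth Nat.Prime n - Nat.nth Nat.Prime (n - 1) : ℕ) : ℝ) := by
        rw [Nat.cast_sub hlt.le]; rfl
      rw [le_div_iff₀ hlogn0, hgap] at hna
      rw [div_lt_iff₀ hlogn0, hgap] at hnb
      set h : ℕ := Nat.nth Nat.Prime n - Nat.nth Nat.Prime (n - 1) with hh
      have hh1 : 1 ≤ h := by omega
      rw [Finset.mem_filter, Finset.mem_Icc]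
      refine ⟨⟨hn1, hnN⟩, h, ?_, ?_, Nat.prime_nth_prime _, ?_⟩
      · rw [Finset.mem_Ioc]
        constructor
        · have h1 : x ≤ h := by
            calc x = a * (L + Real.log ε) := rfl
              _ ≤ a * Real.log n := by gcongr
              _ ≤ h := hna
          have h2 : ⌈x⌉₊ ≤ h := Nat.ceil_le.mpr h1
          omega
        · rw [hB]
          apply Nat.le_floor
          calc (h : ℝ) ≤ b * Real.log n := hnb.le
            _ ≤ b * L := by gcongr
      · have h1 := nth_lt hN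
        refine lt_of_le_of_lt ?_ h1
        exact (Nat.nth_strictMono Nat.infinite_setOfPred_prime).monotone (by omega)
      · have : Nat.nth Nat.Prime (n - 1) + h = Nat.nth Nat.Prime n := by omega
        rw [this]
        exact Nat.prime_nth_prime _
  -- counting the second part
  have hcount2 : (((Icc 1 N).filter (fun n : ℕ => ∃ h ∈ Ioc A B,
        Nat.nth Nat.Prime (n - 1) < M ∧ (Nat.nth Nat.Prime (n - 1)).Prime ∧
        (Nat.nth Nat.Prime (n - 1) + h).Prime)).card : ℝ) ≤
      ∑ h ∈ Ioc A B, (((range M).filter (fun m => m.Prime ∧ (m + h).Prime)).card : ℝ) := by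
    have h1 : ((Icc 1 N).filter (fun n : ℕ => ∃ h ∈ Ioc A B,
        Nat.nth Nat.Prime (n - 1) < M ∧ (Nat.nth Nat.Prime (n - 1)).Prime ∧
        (Nat.nth Nat.Prime (n - 1) + h).Prime)).card ≤
        ((Ioc A B).biUnion (fun h => (range M).filter (fun m => m.Prime ∧ (m + h).Prime))).card := by
      apply Finset.card_le_card_of_injOn (fun n => Nat.nth Nat.Prime (n - 1))
      · intro n hn
        rw [Finset.mem_coe, Finset.mem_filter] at hn
        obtain ⟨_, h, hh, h1, h2, h3⟩ := hn
        rw [Finset.mem_coe, Finset.mem_biUnion]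
        exact ⟨h, hh, Finset.mem_filter.mpr ⟨Finset.mem_range.mpr h1, h2, h3⟩⟩
      · intro n hn n' hn' heq
        rw [Finset.mem_coe, Finset.mem_filter, Finset.mem_Icc] at hn hn'
        have := (Nat.nth_injective Nat.infinite_setOfPred_prime) heq
        omega
    have h2 := h1.trans Finset.card_biUnion_le
    exact_mod_cast h2
  have hsum : ∑ h ∈ Ioc A B, (((range M).filter (fun m => m.Prime ∧ (m + h).Prime)).card : ℝ) ≤
      C * M / (Real.log M) ^ 2 * (C' * ((B : ℝ) - A) + C' * Real.sqrt B) := by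
    calc _ ≤ ∑ h ∈ Ioc A B, C * M / (Real.log M) ^ 2 * G h := by
          apply Finset.sum_le_sum
          intro h hh
          rw [Finset.mem_Ioc] at hh
          have := hpair M hM2 h (by omega)
          calc _ ≤ _ := this
            _ = _ := by ring
      _ = C * M / (Real.log M) ^ 2 * ∑ h ∈ Ioc A B, G h := by rw [Finset.mul_sum]
      _ ≤ _ := by
          apply mul_le_mul_of_nonneg_left (havg A B hAB)
          positivity
  have hfac : C * M / (Real.log M) ^ 2 ≤ C * (5 * N) / L := by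
    have hlM : L ≤ Real.log M := Real.log_le_log hN0 hMN
    calc C * M / (Real.log M) ^ 2 ≤ C * (5 * N * L) / L ^ 2 := by
          have : (0 : ℝ) < L := by linarith
          gcongr
      _ = C * (5 * N) / L := by
          have : L ≠ 0 := by linarith
          field_simp
  have hsqrtB : Real.sqrt B ≤ δ / 2 * L := by
    rw [Real.sqrt_le_left (by positivity)]
    calc (B : ℝ) ≤ b * L := hBup
      _ ≤ (δ ^ 2 / 4 * L) * L := by
        apply mul_le_mul_of_nonneg_right _ (by linarith)
        rw [div_le_iff₀ (by positivity)] at hL2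
        linarith
      _ = (δ / 2 * L) ^ 2 := by ring
  have hc0L : c0 ≤ δ / 2 * L := by
    rw [div_le_iff₀ hδ0] at hL1
    linarith
  have hfin : C * M / (Real.log M) ^ 2 * (C' * ((B : ℝ) - A) + C' * Real.sqrt B) ≤
      (5 * C * C' + 1) * ε * N := by
    have hnn : 0 ≤ C' * ((B : ℝ) - A) + C' * Real.sqrt B := by
      have : (A : ℝ) ≤ B := by exact_mod_cast hAB
      have : 0 ≤ C' * ((B : ℝ) - A) := mul_nonneg hC'.le (by linarith)
      positivity
    calc _ ≤ C * (5 * N) / L * (C' * ((B : ℝ) - A) + C' * Real.sqrt B) :=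
          mul_le_mul_of_nonneg_right hfac hnn
      _ ≤ C * (5 * N) / L * (C' * (ε * L + δ / 2 * L) + C' * (δ / 2 * L)) := by
          have : (0 : ℝ) < L := by linarith
          gcongr
          linarith
      _ = 5 * C * C' * N * (ε + δ) := by
          have : L ≠ 0 := by linarith
          field_simp
          ring
      _ = (5 * C * C' + 1) * ε * N := by
          rw [hδ]; field_simp
  have hcard1 : ((Icc 1 ⌊ε * (N : ℝ)⌋₊).card : ℝ) ≤ ε * N := by
    rw [Nat.card_Icc, Nat.add_sub_cancel]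
    exact Nat.floor_le (by positivity)
  have hfinal := (Finset.card_le_card hcover).trans (Finset.card_union_le _ _)
  have hfinal' : (((Icc 1 N).filter (fun n : ℕ => a ≤ gap n / Real.log n ∧
      gap n / Real.log n < b)).card : ℝ) ≤ ((Icc 1 ⌊ε * (N : ℝ)⌋₊).card : ℝ) +
      (((Icc 1 N).filter (fun n : ℕ => ∃ h ∈ Ioc A B,
        Nat.nth Nat.Prime (n - 1) < M ∧ (Nat.nth Nat.Prime (n - 1)).Prime ∧
        (Nat.nth Nat.Prime (n - 1) + h).Prime)).card : ℝ) := by exact_mod_cast hfinal
  have : ε * (N : ℝ) + (5 * C * C' + 1) * ε * N ≤ (5 * C * C' + 3) * ε * N := by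
    have : 0 < ε * N := by positivity
    nlinarith
  linarith [hfinal', hcard1, hcount2, hsum, hfin, this]

end Pool.Agent.Helper30.Gap
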